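import Pool.Agent.Helper88.QR.StmtsB

/-!
# QR block B, row B10: lengths, uniqueness, corners, positivity for contours of trees
-/

namespace QRB

noncomputable section

open QR Classical

namespace B10

variable {C : Type} {τ α : Equiv.Perm C} {lab : C → ℕ}

lemma pow_add_apply (π : Equiv.Perm C) (m n : ℕ) (x : C) :
    (π ^ (m + n)) x = (π ^ m) ((π ^ n) x) := by
  rw [pow_add, Equiv.Perm.mul_apply]

lemma len {t : LT} {a z : C} (h : Enc τ α lab t a z) : (τ ^ (2 * t.edges)) a = z := by
  induction h with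
  | nil x => simp [LT.edges]
  | cons x z δ t s hne hi hl h1 h2 ih1 ih2 =>
    have e : 2 * (LT.cons δ t s).edges = 2 * s.edges + (1 + (2 * t.edges + 1)) := by
      simp only [LT.edges]; ring
    rw [e, pow_add_apply, pow_add_apply, pow_add_apply, pow_one, ih1, ih2]

lemma uniq {t : LT} {a z : C} (h : Enc τ α lab t a z) :
    ∀ t', Enc τ α lab t' a z → t' = t := by
  induction h with
  | nil x =>
    intro t' h'
    cases h' with
    | nil => rfl
    | cons _ _ δ' t2 s2 hne' hi' hl' h1' h2' => exact absurd rfl hne'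
  | cons x z δ t s hne hi hl h1 h2 ih1 ih2 =>
    intro t' h'
    cases h' with
    | nil => exact absurd rfl hne
    | cons _ _ δ' t2 s2 hne' hi' hl' h1' h2' =>
      have e1 := ih1 _ h1'
      have e2 := ih2 _ h2'
      have e3 : δ' = δ := by
        have := hl.symm.trans hl'
        simp only [LT.ch] at this
        apply Fin.ext
        omega
      rw [e1, e2, e3]

lemma corners {t : LT} {a z : C} (h : Enc τ α lab t a z) (hv : ∀ c, lab (τ c) = lab (α c))
    (k : ℤ) : t.cor k (lab a) =
      ∑ i ∈ Finset.range (2 * t.edges + 1), if (lab ((τ ^ i) a) : ℤ) = k then 1 else 0 := by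
  induction h with
  | nil x =>
    have e : 2 * LT.nil.edges + 1 = 1 := rfl
    rw [e, Finset.sum_range_one]
    rfl
  | cons x z δ t s hne hi hl h1 h2 ih1 ih2 =>
    have e : 2 * (LT.cons δ t s).edges + 1 = (2 * t.edges + 1) + (2 * s.edges + 1) + 1 := by
      simp only [LT.edges]; ring
    have hx : lab (τ (α x)) = lab x := by rw [hv, hi]
    rw [e, Finset.sum_range_succ', Finset.sum_range_add]
    simp only [LT.cor]
    rw [← hl, ih1]
    rw [hx] at ih2
    rw [ih2]
    have f1 : ∀ i, (τ ^ (i + 1)) x = (τ ^ i) (τ x) := by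
      intro i
      rw [pow_add_apply, pow_one]
    have f2 : ∀ i, (τ ^ (2 * t.edges + 1 + i)) (τ x) = (τ ^ i) (τ (α x)) := by
      intro i
      rw [show 2 * t.edges + 1 + i = i + (1 + 2 * t.edges) by ring, pow_add_apply,
        pow_add_apply, pow_one, len h1]
    simp only [f1, f2, pow_zero, Equiv.Perm.one_apply]
    ring

lemma pos {t : LT} {a z : C} (h : Enc τ α lab t a z) (hv : ∀ c, lab (τ c) = lab (α c))
    (hp : ∀ c, 1 ≤ lab c) : t.ge 1 (lab a) := by
  induction h with
  | nil x => exact trivial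
  | cons x z δ t s hne hi hl h1 h2 ih1 ih2 =>
    have hx : lab (τ (α x)) = lab x := by rw [hv, hi]
    rw [hx] at ih2
    rw [hl] at ih1
    refine ⟨?_, ih1, ih2⟩
    rw [← hl]
    exact_mod_cast hp (τ x)

end B10

theorem st_B10 : ST_B10 := by
  intro C τ α lab t a z h
  exact ⟨B10.len h, B10.uniq h, fun hv => ⟨fun k => B10.corners h hv k, fun hp => B10.pos h hv hp⟩⟩

end

end QRB
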