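import Pool.Agent.Helper98.QR.StmtsE

/-!
# QR block E, row E01: rules for `BIso`
-/

namespace QR

noncomputable section

namespace E01

variable {V W U : Type}

lemma near_refl (c : V → V → ℕ) (r : ℕ) (x : V) : SPR.Near c r x x := by
  induction r with
  | zero => exact rfl
  | succ r ih => exact Or.inl ih

lemma near_mono {c : V → V → ℕ} {s r : ℕ} (h : s ≤ r) {x y : V} (hn : SPR.Near c s x y) :
    SPR.Near c r x y := by
  induction r with
  | zero =>
    have hs : s = 0 := by omega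
    subst hs
    exact hn
  | succ r ih =>
    rcases Nat.lt_or_ge r s with h1 | h1
    · have hs : s = r + 1 := by omega
      subst hs
      exact hn
    · exact Or.inl (ih h1)

lemma near_map {c : V → V → ℕ} {c' : W → W → ℕ} {r : ℕ} {x : V} {x' : W}
    (e : {v // SPR.Near c r x v} → {v // SPR.Near c' r x' v})
    (hc : ∀ u v : {v // SPR.Near c r x v}, c (u : V) (v : V) = c' (e u : W) (e v : W))
    (h0 : ∀ h : SPR.Near c r x x, (e ⟨x, h⟩ : W) = x') :
    ∀ s : ℕ, s ≤ r → ∀ v : {v // SPR.Near c r x v}, SPR.Near c s x (v : V) →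
      SPR.Near c' s x' (e v : W) := by
  intro s
  induction s with
  | zero =>
    intro hs v hv
    have hx : x = (v : V) := hv
    have hve : v = ⟨x, near_refl c r x⟩ := Subtype.ext hx.symm
    rw [hve, h0]
    exact near_refl c' 0 x'
  | succ s ih =>
    intro hs v hv
    rcases hv with hv | ⟨z, hz, hzv⟩
    · exact Or.inl (ih (by omega) v hv)
    · have hzr : SPR.Near c r x z := near_mono (by omega) hz
      refine Or.inr ⟨(e ⟨z, hzr⟩ : W), ih (by omega) ⟨z, hzr⟩ hz, ?_⟩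
      rw [← hc]
      exact hzv

lemma trans (r : ℕ) (G : BGraph V) (G' : BGraph W) (G'' : BGraph U)
    (h1 : BIso r G G') (h2 : BIso r G' G'') : BIso r G G'' := by
  obtain ⟨e, hc, hb, hi⟩ := h1
  obtain ⟨e', hc', hb', hi'⟩ := h2
  refine ⟨e.trans e', ?_, ?_, ?_⟩
  · intro u v
    rw [hc, hc']
    rfl
  · intro u
    rw [hb, hb']
    rfl
  · intro i h hir
    have h3 := hi i h hir
    have h4 : SPR.Near G'.c r (G'.b 0) (G'.b i) := by
      rw [← h3]
      exact (e ⟨G.b i, h⟩).2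
    have h5 : e ⟨G.b i, h⟩ = ⟨G'.b i, h4⟩ := Subtype.ext h3
    rw [Equiv.trans_apply, h5]
    exact hi' i h4 hir

lemma zero_eq {r : ℕ} {G : BGraph V} {G' : BGraph W}
    {e : {v // SPR.Near G.c r (G.b 0) v} ≃ {v // SPR.Near G'.c r (G'.b 0) v}}
    (hi : ∀ (i : ℤ) (h : SPR.Near G.c r (G.b 0) (G.b i)), |i| ≤ r →
      ((e ⟨G.b i, h⟩ : {v // SPR.Near G'.c r (G'.b 0) v}) : W) = G'.b i) :
    ∀ h : SPR.Near G.c r (G.b 0) (G.b 0), (e ⟨G.b 0, h⟩ : W) = G'.b 0 := by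
  intro h
  exact hi 0 h (by simp)

lemma zero_eq' {r : ℕ} {G : BGraph V} {G' : BGraph W}
    {e : {v // SPR.Near G.c r (G.b 0) v} ≃ {v // SPR.Near G'.c r (G'.b 0) v}}
    (hi : ∀ (i : ℤ) (h : SPR.Near G.c r (G.b 0) (G.b i)), |i| ≤ r →
      ((e ⟨G.b i, h⟩ : {v // SPR.Near G'.c r (G'.b 0) v}) : W) = G'.b i) :
    ∀ h : SPR.Near G'.c r (G'.b 0) (G'.b 0), (e.symm ⟨G'.b 0, h⟩ : V) = G.b 0 := by
  intro h
  have h1 := zero_eq hi (near_refl _ _ _)
  have h2 : e ⟨G.b 0, near_refl _ _ _⟩ = ⟨G'.b 0, h⟩ := Subtype.ext h1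
  rw [← h2, Equiv.symm_apply_apply]

lemma mono (r s : ℕ) (G : BGraph V) (G' : BGraph W) (hs : s ≤ r) (h : BIso r G G') :
    BIso s G G' := by
  obtain ⟨e, hc, hb, hi⟩ := h
  have h0 := zero_eq hi
  have h0' := zero_eq' hi
  have hc' : ∀ u v : {v // SPR.Near G'.c r (G'.b 0) v},
      G'.c (u : W) (v : W) = G.c (e.symm u : V) (e.symm v : V) := by
    intro u v
    rw [hc, Equiv.apply_symm_apply, Equiv.apply_symm_apply]
  have m1 := near_map (fun v => e v) hc h0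
  have m2 := near_map (fun v => e.symm v) hc' h0'
  refine ⟨⟨fun v => ⟨(e ⟨v.1, near_mono hs v.2⟩ : W), m1 s hs ⟨v.1, near_mono hs v.2⟩ v.2⟩,
    fun w => ⟨(e.symm ⟨w.1, near_mono hs w.2⟩ : V), m2 s hs ⟨w.1, near_mono hs w.2⟩ w.2⟩, ?_, ?_⟩,
    ?_, ?_, ?_⟩
  · intro v
    apply Subtype.ext
    simp
  · intro w
    apply Subtype.ext
    simp
  · intro u v
    exact hc ⟨u.1, near_mono hs u.2⟩ ⟨v.1, near_mono hs v.2⟩
  · intro u
    exact hb ⟨u.1, near_mono hs u.2⟩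
  · intro i h his
    exact hi i (near_mono hs h) (his.trans (by exact_mod_cast hs))

lemma refl (r : ℕ) (G : BGraph V) : BIso r G G :=
  ⟨Equiv.refl _, fun _ _ => rfl, fun _ => Iff.rfl, fun _ _ _ => rfl⟩

lemma symm (r : ℕ) (G : BGraph V) (G' : BGraph W) (h : BIso r G G')
    (hn : ∀ i : ℤ, |i| ≤ r → SPR.Near G.c r (G.b 0) (G.b i)) :
    BIso r G' G ∧ ∀ i : ℤ, |i| ≤ r → SPR.Near G'.c r (G'.b 0) (G'.b i) := by
  obtain ⟨e, hc, hb, hi⟩ := h
  have hn' : ∀ i : ℤ, |i| ≤ r → SPR.Near G'.c r (G'.b 0) (G'.b i) := by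
    intro i hir
    rw [← hi i (hn i hir) hir]
    exact (e ⟨G.b i, hn i hir⟩).2
  refine ⟨⟨e.symm, ?_, ?_, ?_⟩, hn'⟩
  · intro u v
    rw [hc, Equiv.apply_symm_apply, Equiv.apply_symm_apply]
  · intro u
    rw [hb, Equiv.apply_symm_apply]
  · intro i h hir
    have h2 : e ⟨G.b i, hn i hir⟩ = ⟨G'.b i, h⟩ := Subtype.ext (hi i (hn i hir) hir)
    rw [← h2, Equiv.symm_apply_apply]

lemma path (G : BGraph V) (hs : ∀ x y, G.c x y = G.c y x)
    (ha : ∀ i, G.c (G.b i) (G.b (i + 1)) ≠ 0) :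
    ∀ n : ℕ, SPR.Near G.c n (G.b 0) (G.b n) ∧ SPR.Near G.c n (G.b 0) (G.b (-n)) := by
  intro n
  induction n with
  | zero => exact ⟨rfl, by simpa using near_refl G.c 0 (G.b 0)⟩
  | succ n ih =>
    refine ⟨Or.inr ⟨_, ih.1, ?_⟩, Or.inr ⟨_, ih.2, ?_⟩⟩
    · have := ha n
      push_cast
      exact this
    · have := ha (-((n : ℤ) + 1))
      rw [hs]
      push_cast
      have e1 : -((n : ℤ) + 1) + 1 = -(n : ℤ) := by ring
      rw [e1] at this
      exact this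

lemma near_boundary (G : BGraph V) (hs : ∀ x y, G.c x y = G.c y x)
    (ha : ∀ i, G.c (G.b i) (G.b (i + 1)) ≠ 0) (r : ℕ) (i : ℤ) (hi : |i| ≤ r) :
    SPR.Near G.c r (G.b 0) (G.b i) := by
  have h := path G hs ha i.natAbs
  have hr : i.natAbs ≤ r := by
    rw [Int.abs_eq_natAbs] at hi
    exact_mod_cast hi
  rcases Int.natAbs_eq i with h1 | h1
  · have h2 := near_mono hr h.1
    rw [← h1] at h2
    exact h2
  · have h2 := near_mono hr h.2
    rw [← h1] at h2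
    exact h2

lemma near_equiv_mp {c : V → V → ℕ} {c' : W → W → ℕ} (e : V → W)
    (hc : ∀ x y, c x y = c' (e x) (e y)) (x : V) :
    ∀ (r : ℕ) (v : V), SPR.Near c r x v → SPR.Near c' r (e x) (e v) := by
  intro r
  induction r with
  | zero =>
    intro v hv
    have hx : x = v := hv
    rw [hx]
    exact near_refl c' 0 (e v)
  | succ r ih =>
    intro v hv
    rcases hv with hv | ⟨z, hz, hzv⟩
    · exact Or.inl (ih v hv)
    · exact Or.inr ⟨e z, ih z hz, by rw [← hc]; exact hzv⟩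

lemma near_equiv {c : V → V → ℕ} {c' : W → W → ℕ} (e : V ≃ W)
    (hc : ∀ x y, c x y = c' (e x) (e y)) (x : V) (r : ℕ) (v : V) :
    SPR.Near c r x v ↔ SPR.Near c' r (e x) (e v) := by
  refine ⟨near_equiv_mp (fun v => e v) hc x r v, fun h => ?_⟩
  have h1 := near_equiv_mp (c := c') (c' := c) (fun v => e.symm v) (fun a b => by
    rw [hc, Equiv.apply_symm_apply, Equiv.apply_symm_apply]) (e x) r (e v) h
  simpa using h1

lemma of_equiv (r : ℕ) (G : BGraph V) (G' : BGraph W) (e : V ≃ W)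
    (hc : ∀ x y, G.c x y = G'.c (e x) (e y)) (hb : ∀ i, e (G.b i) = G'.b i) : BIso r G G' := by
  have hn : ∀ v, SPR.Near G.c r (G.b 0) v ↔ SPR.Near G'.c r (G'.b 0) (e v) := by
    intro v
    rw [near_equiv e hc (G.b 0) r v, hb]
  refine ⟨e.subtypeEquiv hn, ?_, ?_, ?_⟩
  · intro u v
    exact hc _ _
  · intro u
    constructor
    · rintro ⟨i, hi⟩
      exact ⟨i, by rw [← hb, hi]; rfl⟩
    · rintro ⟨i, hi⟩
      refine ⟨i, e.injective ?_⟩
      rw [hb, hi]
      rfl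
  · intro i h _
    exact hb i

end E01

theorem st_E01 : ST_E01 :=
  ⟨fun r _ _ _ G G' G'' h1 h2 => E01.trans r G G' G'' h1 h2,
    fun r s _ _ G G' hs h => E01.mono r s G G' hs h,
    fun r _ G => E01.refl r G,
    fun r _ _ G G' h hn => E01.symm r G G' h hn,
    fun _ G hs ha r i hi => E01.near_boundary G hs ha r i hi,
    fun r _ _ G G' e hc hb => E01.of_equiv r G G' e hc hb⟩

end

end QR
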